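import Pool.Agent.H912R3.QM.Greedy
import Pool.Agent.H426R3.SQ.C1e
import Pool.Agent.H426R3.SQ.Cnt

set_option autoImplicit false
set_option maxHeartbeats 4000000

/-! # Greedy choice of residue classes for the forms `(n + a) ^ 2 - D b ^ 2` -/

namespace Pool.Agent.H912R3.QO

open Finset Pool.Agent.H256R2.SC Pool.Agent.H256R2.SC.G3 Pool.Agent.H426R3.SQ

open scoped Classical

open Pool.Agent.H912R3.QM

open Pool.Agent.Helper919 (XX)

/-- the survivors of a good choice of classes modulo the primes up to `N` -/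
theorem survivors_two (D : ℤ) (hD : D ≠ 0) (hsq : ¬ IsSquare D) : ∃ C : ℝ, 0 < C ∧ ∀ N : ℕ, 4 ≤ N → ∀ F : Finset (ℤ × ℕ),
    (∀ x ∈ F, 1 ≤ x.2) →
    ∃ b : ℕ → ℕ, (∀ p ∈ (Icc 3 N).filter Nat.Prime, b p < p) ∧
      ((F.filter (fun x => ∀ p ∈ (Icc 3 N).filter Nat.Prime,
        ¬ (p : ℤ) ∣ ((b p : ℤ) + x.1) ^ 2 + -(D * (x.2 : ℤ) ^ 2))).card : ℝ) ≤
        C / Real.log N * ∑ x ∈ F, ((x.2 : ℝ) / Nat.totient x.2) ^ 2 := by
  obtain ⟨C, hC0, hC⟩ := mertens_four D hD hsq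
  refine ⟨Real.exp (Real.log (Real.log 4) + C), Real.exp_pos _, fun N hN F hF => ?_⟩
  obtain ⟨b, hb1, hb2⟩ := greedy_two (fun p c (x : ℤ × ℕ) => (p : ℤ) ∣ ((c : ℤ) + x.1) ^ 2 + -(D * (x.2 : ℤ) ^ 2))
    (fun p x => p.Prime ∧ XX D p = 1 ∧ ¬ p ∣ x.2) (by
      rintro p x ⟨hp, hp4, hpx⟩
      exact two_roots D hp hp4 hpx x.1)
    ((Icc 3 N).filter Nat.Prime) (fun p hp => (mem_filter.1 hp).2.two_le) F
  refine ⟨b, hb1, ?_⟩
  refine le_trans (b := ∑ x ∈ F, ∏ p ∈ ((Icc 3 N).filter Nat.Prime).filter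
    (fun p => p.Prime ∧ XX D p = 1 ∧ ¬ p ∣ x.2), (1 - 2 / (p : ℝ)))
    (le_trans (le_of_eq (by congr!)) (le_trans hb2 (le_of_eq (by congr!)))) ?_
  rw [mul_sum]
  apply sum_le_sum
  intro x hx
  have hx1 := hF x hx
  have hN4 : (4 : ℝ) ≤ N := by exact_mod_cast hN
  have hlN : 0 < Real.log N := Real.log_pos (by linarith)
  have hl4 : 0 < Real.log 4 := Real.log_pos (by norm_num)
  have h1 := hC 4 N le_rfl hN4
  have hφ : 0 < (Nat.totient x.2 : ℝ) := by exact_mod_cast Nat.totient_pos.2 (by omega : 0 < x.2)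
  have hx0 : (0 : ℝ) < x.2 := by exact_mod_cast hx1
  have h2 : Real.exp (∑ p ∈ x.2.primeFactors, (1 : ℝ) / p) ≤ (x.2 : ℝ) / Nat.totient x.2 := by
    rw [le_div_iff₀ hφ]
    have h3 : (Nat.totient x.2 : ℝ) = x.2 * ∏ p ∈ x.2.primeFactors, (1 - 1 / (p : ℝ)) := by
      rw [← totient_div x.2 (by omega)]
      field_simp
    have h4 : ∏ p ∈ x.2.primeFactors, (1 - 1 / (p : ℝ)) ≤
        Real.exp (-∑ p ∈ x.2.primeFactors, (1 : ℝ) / p) := by
      rw [← sum_neg_distrib, Real.exp_sum]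
      apply prod_le_prod
      · intro p hp
        have h5 : (2 : ℝ) ≤ p := by exact_mod_cast (Nat.prime_of_mem_primeFactors hp).two_le
        have : 1 / (p : ℝ) ≤ 1 := by rw [div_le_one (by linarith)]; linarith
        linarith
      · intro p _
        have := Real.add_one_le_exp (-(1 / (p : ℝ)))
        linarith
    rw [h3]
    calc Real.exp (∑ p ∈ x.2.primeFactors, (1 : ℝ) / p) *
          (x.2 * ∏ p ∈ x.2.primeFactors, (1 - 1 / (p : ℝ))) ≤
          Real.exp (∑ p ∈ x.2.primeFactors, (1 : ℝ) / p) *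
          (x.2 * Real.exp (-∑ p ∈ x.2.primeFactors, (1 : ℝ) / p)) := by gcongr
      _ = x.2 := by
          rw [Real.exp_neg]
          field_simp
  have h5 : ∏ p ∈ ((Icc 3 N).filter Nat.Prime).filter
      (fun p => p.Prime ∧ XX D p = 1 ∧ ¬ p ∣ x.2), (1 - 2 / (p : ℝ)) ≤
      Real.exp (-∑ p ∈ ((Icc 3 N).filter Nat.Prime).filter
      (fun p => p.Prime ∧ XX D p = 1 ∧ ¬ p ∣ x.2), (2 : ℝ) / p) := by
    rw [← sum_neg_distrib, Real.exp_sum]
    apply prod_le_prod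
    · intro p hp
      have h5 : (2 : ℝ) ≤ p := by exact_mod_cast (mem_filter.1 hp).2.1.two_le
      have : 2 / (p : ℝ) ≤ 1 := by rw [div_le_one (by linarith)]; linarith
      linarith
    · intro p _
      have := Real.add_one_le_exp (-(2 / (p : ℝ)))
      linarith
  have h6 : ∑ p ∈ (SP 4 N ∅).filter (fun p => XX D p = 1), (2 : ℝ) / p ≤
      ∑ p ∈ ((Icc 3 N).filter Nat.Prime).filter
      (fun p => p.Prime ∧ XX D p = 1 ∧ ¬ p ∣ x.2), (2 : ℝ) / p +
      2 * ∑ p ∈ x.2.primeFactors, (1 : ℝ) / p := by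
    have c1 : (SP 4 N ∅).filter (fun p => XX D p = 1) ⊆
        ((Icc 3 N).filter Nat.Prime).filter
      (fun p => p.Prime ∧ XX D p = 1 ∧ ¬ p ∣ x.2) ∪ x.2.primeFactors := by
      intro p hp
      simp only [SP, mem_filter, mem_Icc, notMem_empty, not_false_eq_true, and_true,
        Nat.floor_natCast] at hp
      have hp4 : 4 < p := by exact_mod_cast hp.1.2.2
      rw [mem_union, mem_filter, mem_filter, mem_Icc, Nat.mem_primeFactors]
      by_cases h : p ∣ x.2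
      · exact Or.inr ⟨hp.1.2.1, h, by omega⟩
      · exact Or.inl ⟨⟨⟨by omega, hp.1.1.2⟩, hp.1.2.1⟩, hp.1.2.1, hp.2, h⟩
    refine (Finset.sum_le_sum_of_subset_of_nonneg c1 (fun p _ _ => by positivity)).trans ?_
    refine (Pool.Agent.H912R3.LF.sum_union_le _ _ _ (fun p _ => by positivity)).trans ?_
    rw [mul_sum]
    apply add_le_add le_rfl
    apply sum_le_sum
    intro p _
    rw [mul_one_div]
  calc _ ≤ _ := h5
    _ ≤ Real.exp ((Real.log (Real.log 4) + C) - Real.log (Real.log N) +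
          2 * ∑ p ∈ x.2.primeFactors, (1 : ℝ) / p) := by
        apply Real.exp_le_exp.2
        linarith
    _ = Real.exp (Real.log (Real.log 4) + C) / Real.log N *
          (Real.exp (∑ p ∈ x.2.primeFactors, (1 : ℝ) / p)) ^ 2 := by
        rw [Real.exp_add, Real.exp_sub, Real.exp_log hlN, ← Real.exp_nat_mul]
        norm_num
    _ ≤ _ := by
        gcongr

end Pool.Agent.H912R3.QO
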